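import Pool.Agent.CYE.StmtsB
import Pool.Agent.CYE.StmtsC

/-! # Squad CYE: row GLB.  helper92. -/

set_option autoImplicit false

open Polynomial

namespace Pool.Agent.CYE.H92

theorem glb (evl : EvlStmt) : GlbStmt := by
  intro ι _ _ q _ L _ α hα hq F G τ T
  obtain ⟨-, e2, e3, e4, -, -⟩ := evl ι q L α hα hq
  have hα0 : ∀ i, α i ≠ 0 := fun i => (hα i).ne_zero (Fact.out : (q i).Prime).ne_zero
  induction T with
  | nil =>
    intro b b' s hc _
    have hc' : τ b = τ b' := hc
    have key : ∀ (f : L[X]) (c : Pt q), (f.comp (C (ev α c) * X)).comp (C (ev α c)⁻¹ * X) = f := by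
      intro f c
      rw [comp_assoc]
      have : (C (ev α c) * X : L[X]).comp (C (ev α c)⁻¹ * X) = X := by
        simp only [mul_comp, C_comp, X_comp]
        rw [← mul_assoc, ← C_mul, mul_inv_cancel₀ (e2 c).1, C_1, one_mul]
      rw [this, comp_X]
    refine ⟨?_, ?_⟩
    · change ((F (τ b)).comp (C (ev α b) * X)).comp _ = ((F (τ b')).comp (C (ev α b') * X)).comp _
      rw [key, key, hc']
    · change (G.comp (C (ev α b) * X)).comp _ = (G.comp (C (ev α b') * X)).comp _
      rw [key, key]
  | cons x t ih =>
    obtain ⟨i, c⟩ := x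
    set A : Pt q → L[X] := fun b => (F (τ b)).comp (C (ev α b) * X) with hA
    set B : Pt q → L[X] := fun b => G.comp (C (ev α b) * X) with hB
    cases c with
    | false =>
      intro b b' s hc hb
      have hc1 : code τ t (sh i s b) s = code τ t (sh i s b') s := congrArg Prod.fst hc
      have hc2 : code τ t b s = code τ t b' s := congrArg Prod.snd hc
      have hb2 : ∀ j, (j, true) ∈ t → b j = b' j := fun j hj => hb j (List.mem_cons_of_mem _ hj)
      have hb1 : ∀ j, (j, true) ∈ t → sh i s b j = sh i s b' j := by
        intro j hj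
        simp only [sh]
        rw [hb2 j hj]
      have h1 := ih (sh i s b) (sh i s b') s hc1 hb1
      have h2 := ih b b' s hc2 hb2
      have key : ∀ (f : L[X]) (c : Pt q), f.comp (C (ev α c)⁻¹ * X) =
          (f.comp (C (ev α (sh i s c))⁻¹ * X)).comp (C (α i ^ (s i).val) * X) := by
        intro f c
        rw [comp_assoc]
        congr 1
        simp only [mul_comp, C_comp, X_comp]
        rw [← mul_assoc, ← C_mul, e4]
        congr 2
        have h3 := (e2 c).1
        have h4 : α i ^ (s i).val ≠ 0 := pow_ne_zero _ (hα0 i)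
        field_simp
      refine ⟨?_, ?_⟩
      · change ((NP A B t (sh i s b) s).1 * (NP A B t b s).2 -
          (NP A B t b s).1 * (NP A B t (sh i s b) s).2).comp _ =
          ((NP A B t (sh i s b') s).1 * (NP A B t b' s).2 -
          (NP A B t b' s).1 * (NP A B t (sh i s b') s).2).comp _
        simp only [sub_comp, mul_comp]
        rw [h2.1, h2.2, key (NP A B t (sh i s b) s).1 b, key (NP A B t (sh i s b) s).2 b,
          key (NP A B t (sh i s b') s).1 b', key (NP A B t (sh i s b') s).2 b', h1.1, h1.2]
      · change ((NP A B t (sh i s b) s).2 * (NP A B t b s).2).comp _ =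
          ((NP A B t (sh i s b') s).2 * (NP A B t b' s).2).comp _
        simp only [mul_comp]
        rw [h2.2, key (NP A B t (sh i s b) s).2 b, key (NP A B t (sh i s b') s).2 b', h1.2]
    | true =>
      intro b b' s hc hb
      have hc1 : code τ t (fr i b) (fr i s) = code τ t (fr i b') (fr i s) := congrArg Prod.fst hc
      have hc2 : code τ t b s = code τ t b' s := congrArg Prod.snd hc
      have hb2 : ∀ j, (j, true) ∈ t → b j = b' j := fun j hj => hb j (List.mem_cons_of_mem _ hj)
      have hbi : b i = b' i := hb i List.mem_cons_self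
      have hb1 : ∀ j, (j, true) ∈ t → fr i b j = fr i b' j := by
        intro j hj
        simp only [fr]
        rw [hb2 j hj]
      have h1 := ih (fr i b) (fr i b') (fr i s) hc1 hb1
      have h2 := ih b b' s hc2 hb2
      have key : ∀ (f : L[X]) (c : Pt q), (expand L (q i) f).comp (C (ev α c)⁻¹ * X) =
          (f.comp (C (ev α (fr i c))⁻¹ * X)).comp (C (α i ^ (c i).val) * X ^ (q i)) := by
        intro f c
        rw [expand_eq_comp_X_pow, comp_assoc, comp_assoc]
        congr 1
        simp only [mul_comp, C_comp, X_comp, pow_comp]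
        rw [← mul_assoc, ← C_mul, e3, mul_pow, ← C_pow]
        congr 2
        have h4 : α i ^ (c i).val ≠ 0 := pow_ne_zero _ (hα0 i)
        rw [mul_inv, mul_assoc, inv_mul_cancel₀ h4, mul_one, inv_pow]
      refine ⟨?_, ?_⟩
      · change (C (q i : L) * expand L (q i) (NP A B t (fr i b) (fr i s)).1 * (NP A B t b s).2 -
          (NP A B t b s).1 * expand L (q i) (NP A B t (fr i b) (fr i s)).2).comp _ =
          (C (q i : L) * expand L (q i) (NP A B t (fr i b') (fr i s)).1 * (NP A B t b' s).2 -
          (NP A B t b' s).1 * expand L (q i) (NP A B t (fr i b') (fr i s)).2).comp _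
        simp only [sub_comp, mul_comp, C_comp]
        rw [h2.1, h2.2, key _ b, key (NP A B t (fr i b) (fr i s)).2 b,
          key (NP A B t (fr i b') (fr i s)).1 b', key (NP A B t (fr i b') (fr i s)).2 b', h1.1,
          h1.2, hbi]
      · change (expand L (q i) (NP A B t (fr i b) (fr i s)).2 * (NP A B t b s).2).comp _ =
          (expand L (q i) (NP A B t (fr i b') (fr i s)).2 * (NP A B t b' s).2).comp _
        simp only [mul_comp]
        rw [h2.2, key (NP A B t (fr i b) (fr i s)).2 b, key (NP A B t (fr i b') (fr i s)).2 b',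
          h1.2, hbi]

end Pool.Agent.CYE.H92
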