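import Mathlib

/-! # Squad CYE (MP_734b60_nt, Theorem K), parts E2 and E4 in abstract form.  helper92. -/

set_option autoImplicit false

namespace Pool.Agent.CYE

/-- CNT (E4).  `G` is the group of the `b`, `S` the set of shifts, `B s` the admissible `b`, `A s` the
good ones, `gen` the generic shifts. -/
theorem cnt {G S : Type} [Fintype G] [DecidableEq G] [Fintype S] [DecidableEq S] [Nonempty G]
    (A B : S → Finset G) (hAB : ∀ s, A s ⊆ B s) (gen : Finset S)
    (ty : G → Bool)
    (h1 : ∀ s ∈ gen, ∀ b ∈ A s, ∀ b' ∈ A s, ty b = ty b')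
    (h2 : 8 * (Finset.univ \ gen).card ≤ Fintype.card S)
    (h3 : ∀ s, 3 * Fintype.card G ≤ 4 * (B s).card)
    (h4 : ∀ b : G, 4 * (Finset.univ.filter (fun s => b ∉ B s)).card ≤ Fintype.card S)
    (h5 : 64 * ∑ s, (B s \ A s).card ≤ Fintype.card G * Fintype.card S) :
    ∃ x : Bool, Fintype.card S * (Finset.univ.filter (fun b => ty b ≠ x)).card ≤
      2 * ∑ s, (B s \ A s).card := by
  classical
  rcases isEmpty_or_nonempty S with hS | hS
  · exact ⟨true, by simp⟩
  have hG : 0 < Fintype.card G := Fintype.card_pos
  have hSp : 0 < Fintype.card S := Fintype.card_pos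
  set Δ := ∑ s, (B s \ A s).card with hΔ
  set good : Finset S := gen.filter (fun s => 8 * (B s \ A s).card ≤ Fintype.card G) with hgood
  -- the number of bad shifts
  have hbad : 4 * (Finset.univ \ good).card ≤ Fintype.card S := by
    have a1 : Finset.univ \ good ⊆ (Finset.univ \ gen) ∪
        Finset.univ.filter (fun s => Fintype.card G < 8 * (B s \ A s).card) := by
      intro s hs
      rw [Finset.mem_union]
      by_cases hg : s ∈ gen
      · right
        rw [Finset.mem_filter]
        refine ⟨Finset.mem_univ _, ?_⟩
        by_contra hcon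
        rw [Finset.mem_sdiff] at hs
        apply hs.2
        rw [hgood, Finset.mem_filter]
        exact ⟨hg, by omega⟩
      · left
        rw [Finset.mem_sdiff]
        exact ⟨Finset.mem_univ _, hg⟩
    have a2 := (Finset.card_le_card a1).trans (Finset.card_union_le _ _)
    set E := Finset.univ.filter (fun s => Fintype.card G < 8 * (B s \ A s).card) with hE
    have a3 : E.card * Fintype.card G ≤ 8 * Δ := by
      calc E.card * Fintype.card G = ∑ _s ∈ E, Fintype.card G := by
            rw [Finset.sum_const, smul_eq_mul]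
        _ ≤ ∑ s ∈ E, 8 * (B s \ A s).card := by
            refine Finset.sum_le_sum (fun s hs => ?_)
            rw [hE, Finset.mem_filter] at hs
            omega
        _ ≤ ∑ s, 8 * (B s \ A s).card :=
            Finset.sum_le_sum_of_subset_of_nonneg (Finset.subset_univ _) (fun _ _ _ => Nat.zero_le _)
        _ = 8 * Δ := by rw [hΔ, Finset.mul_sum]
    have a4 : 8 * E.card ≤ Fintype.card S := by
      have : (8 * E.card) * Fintype.card G ≤ Fintype.card S * Fintype.card G := by
        calc (8 * E.card) * Fintype.card G = 8 * (E.card * Fintype.card G) := by ring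
          _ ≤ 8 * (8 * Δ) := Nat.mul_le_mul_left _ a3
          _ = 64 * Δ := by ring
          _ ≤ Fintype.card G * Fintype.card S := h5
          _ = Fintype.card S * Fintype.card G := by ring
      exact Nat.le_of_mul_le_mul_right this hG
    omega
  -- large good sets
  have hA : ∀ s ∈ good, Fintype.card G < 2 * (A s).card := by
    intro s hs
    rw [hgood, Finset.mem_filter] at hs
    have b1 := Finset.card_sdiff_add_card_eq_card (hAB s)
    have b2 := h3 s
    omega
  have hmeet : ∀ (U V : Finset G), Fintype.card G < 2 * U.card → Fintype.card G < 2 * V.card →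
      ∃ b, b ∈ U ∧ b ∈ V := by
    intro U V hU hV
    by_contra hcon
    push Not at hcon
    have hd : Disjoint U V := Finset.disjoint_left.mpr hcon
    have c1 := Finset.card_union_of_disjoint hd
    have c2 := Finset.card_le_univ (U ∪ V)
    omega
  -- a good shift exists
  have hne : good.Nonempty := by
    rw [Finset.nonempty_iff_ne_empty]
    intro h0
    rw [h0, Finset.sdiff_empty, Finset.card_univ] at hbad
    omega
  obtain ⟨s0, hs0⟩ := hne
  obtain ⟨b0, hb0, -⟩ := hmeet (A s0) (A s0) (hA s0 hs0) (hA s0 hs0)
  refine ⟨ty b0, ?_⟩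
  have hty : ∀ s ∈ good, ∀ b ∈ A s, ty b = ty b0 := by
    intro s hs b hb
    obtain ⟨c, hc, hc'⟩ := hmeet (A s) (A s0) (hA s hs) (hA s0 hs0)
    have d1 := h1 s (Finset.mem_filter.mp hs).1 b hb c hc
    have d2 := h1 s0 (Finset.mem_filter.mp hs0).1 c hc' b0 hb0
    exact d1.trans d2
  -- double counting
  set Y := Finset.univ.filter (fun b => ty b ≠ ty b0) with hY
  have hcount : ∀ b : G, Fintype.card S ≤ 2 * (good.filter (fun s => b ∈ B s)).card := by
    intro b
    have e1 : Finset.univ \ (good.filter (fun s => b ∈ B s)) ⊆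
        (Finset.univ \ good) ∪ Finset.univ.filter (fun s => b ∉ B s) := by
      intro s hs
      rw [Finset.mem_union]
      by_cases hg : s ∈ good
      · right
        rw [Finset.mem_filter]
        refine ⟨Finset.mem_univ _, fun hb => ?_⟩
        rw [Finset.mem_sdiff, Finset.mem_filter] at hs
        exact hs.2 ⟨hg, hb⟩
      · left
        rw [Finset.mem_sdiff]
        exact ⟨Finset.mem_univ _, hg⟩
    have e2 := (Finset.card_le_card e1).trans (Finset.card_union_le _ _)
    have e3 := Finset.card_sdiff_add_card_eq_card
      (Finset.subset_univ (good.filter (fun s => b ∈ B s)))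
    rw [Finset.card_univ] at e3
    have e4 := h4 b
    omega
  have hdc : ∑ b ∈ Y, (good.filter (fun s => b ∈ B s)).card ≤ Δ := by
    have f1 : ∑ b ∈ Y, (good.filter (fun s => b ∈ B s)).card =
        ∑ s ∈ good, (Y.filter (fun b => b ∈ B s)).card := by
      simp only [Finset.card_filter]
      rw [Finset.sum_comm]
    rw [f1]
    calc ∑ s ∈ good, (Y.filter (fun b => b ∈ B s)).card
        ≤ ∑ s ∈ good, (B s \ A s).card := by
          refine Finset.sum_le_sum (fun s hs => Finset.card_le_card (fun b hb => ?_))
          rw [Finset.mem_filter] at hb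
          rw [Finset.mem_sdiff]
          refine ⟨hb.2, fun hbA => ?_⟩
          have := hb.1
          rw [hY, Finset.mem_filter] at this
          exact this.2 (hty s hs b hbA)
      _ ≤ Δ := Finset.sum_le_sum_of_subset_of_nonneg (Finset.subset_univ _)
          (fun _ _ _ => Nat.zero_le _)
  calc Fintype.card S * Y.card = ∑ _b ∈ Y, Fintype.card S := by
        rw [Finset.sum_const, smul_eq_mul, mul_comm]
    _ ≤ ∑ b ∈ Y, 2 * (good.filter (fun s => b ∈ B s)).card :=
        Finset.sum_le_sum (fun b _ => hcount b)
    _ = 2 * ∑ b ∈ Y, (good.filter (fun s => b ∈ B s)).card := by rw [Finset.mul_sum]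
    _ ≤ 2 * Δ := Nat.mul_le_mul_left _ hdc

end Pool.Agent.CYE
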