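import Pool.Agent.Helper92_CYE.Sch

/-! # Squad CYE (MP_734b60_nt, Theorem K), part D: one small prime.  helper92. -/

set_option autoImplicit false

open Polynomial

namespace Pool.Agent.CYE

variable {L : Type} [Field L]

theorem N1_eval_zero (N P : L[X]) : (N1 N P).eval 0 = 0 := by simp [N1, der]

/-- Numerator of `q F(X ^ q) - G`, `F = N / P`, `G = N' / P'`. -/
noncomputable def opN (q : ℕ) (N P N' P' : L[X]) : L[X] :=
  C (q : L) * expand L q N * P' - N' * expand L q P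

/-- Denominator of `q F(X ^ q) - G`. -/
noncomputable def opP (q : ℕ) (P P' : L[X]) : L[X] := expand L q P * P'

theorem N1_op (q : ℕ) (N P N' P' : L[X]) :
    N1 (opN q N P N' P') (opP q P P') =
      C ((q : L) ^ 2) * expand L q (N1 N P) * P' ^ 2 - N1 N' P' * expand L q P ^ 2 := by
  simp only [N1, opN, opP, der_sub, der_mul, der_C, der_expand, map_sub, map_mul, map_pow]
  ring

theorem expand_X_dvd {q : ℕ} {f : L[X]} (h : f.eval 0 = 0) : X ^ q ∣ expand L q f := by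
  have h1 : (X : L[X]) ∣ f := by rw [X_dvd_iff, coeff_zero_eq_eval_zero]; exact h
  obtain ⟨g, rfl⟩ := h1
  rw [map_mul, expand_X]
  exact Dvd.intro _ rfl

theorem peel_iter {Ω : Type} (φ : Equiv.Perm Ω) (N P : Ω → L[X])
    (hP : ∀ w, (P w).eval 0 ≠ 0) {q : ℕ} (hq : 2 ≤ q) (w : Ω) (j : ℕ)
    (h : ∀ i < j, N1 (opN q (N (φ ((φ ^ i) w))) (P (φ ((φ ^ i) w))) (N ((φ ^ i) w)) (P ((φ ^ i) w)))
      (opP q (P (φ ((φ ^ i) w))) (P ((φ ^ i) w))) = 0) :
    N1 (N w) (P w) * expand L (q ^ j) (P ((φ ^ j) w)) ^ 2 =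
      C ((q : L) ^ (2 * j)) * expand L (q ^ j) (N1 (N ((φ ^ j) w)) (P ((φ ^ j) w))) * P w ^ 2 := by
  induction j with
  | zero => simp
  | succ j ih =>
    have h1 := ih (fun i hi => h i (by omega))
    have h2 := h j (by omega)
    rw [N1_op] at h2
    have hs : φ ((φ ^ j) w) = (φ ^ (j + 1)) w := by
      rw [pow_succ']; rfl
    rw [hs] at h2
    have h3 := congrArg (expand L (q ^ j)) h2
    simp only [map_sub, map_mul, map_pow, expand_C, expand_expand, map_zero] at h3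
    rw [← pow_succ] at h3
    have h4 : expand L (q ^ j) (P ((φ ^ j) w)) ≠ 0 := by
      intro h0
      have := (expand_eq_zero (pow_pos (by omega : 0 < q) j)).mp h0
      apply hP ((φ ^ j) w)
      rw [this]; simp
    have h5 : expand L (q ^ j) (P ((φ ^ j) w)) ^ 2 *
        (N1 (N w) (P w) * expand L (q ^ (j + 1)) (P ((φ ^ (j + 1)) w)) ^ 2 -
        C ((q : L) ^ (2 * (j + 1))) *
          expand L (q ^ (j + 1)) (N1 (N ((φ ^ (j + 1)) w)) (P ((φ ^ (j + 1)) w))) *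
          P w ^ 2) = 0 := by
      simp only [map_pow] at h1 ⊢
      linear_combination expand L (q ^ (j + 1)) (P ((φ ^ (j + 1)) w)) ^ 2 * h1 -
        C (q : L) ^ (2 * j) * P w ^ 2 * h3
    exact sub_eq_zero.mp ((mul_eq_zero.mp h5).resolve_left (pow_ne_zero _ h4))

theorem X_pow_dvd_cancel {k : ℕ} {f g : L[X]} (hf : f.eval 0 ≠ 0)
    (h : X ^ k ∣ g * f) : X ^ k ∣ g := by
  have h1 : ¬ (X : L[X]) ∣ f := fun h2 => by
    rw [X_dvd_iff, coeff_zero_eq_eval_zero] at h2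
    exact hf h2
  have h2 : IsCoprime ((X : L[X]) ^ k) f :=
    IsCoprime.pow_left ((prime_X (R := L)).coprime_iff_not_dvd.mpr h1)
  exact h2.dvd_of_dvd_mul_right h

/-- PEEL: one small prime. -/
theorem peel {Ω : Type} [Fintype Ω] [DecidableEq Ω] (φ : Equiv.Perm Ω) (N P : Ω → L[X]) (M : ℕ)
    (hP : ∀ w, (P w).eval 0 ≠ 0) (hN : ∀ w, (N w).natDegree ≤ M) (hPd : ∀ w, (P w).natDegree ≤ M)
    {q J : ℕ} (hq : 2 ≤ q) (hJ : 2 * M < q ^ J) (Z Z' : Finset Ω)
    (hZ : ∀ w ∈ Z, N1 (N w) (P w) ≠ 0)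
    (hZ' : ∀ w, N1 (opN q (N (φ w)) (P (φ w)) (N w) (P w)) (opP q (P (φ w)) (P w)) ≠ 0 → w ∈ Z') :
    Z.card ≤ J * Z'.card := by
  have hsub : Z ⊆ (Finset.range J).biUnion (fun i => Z'.image (fun w => (φ ^ i)⁻¹ w)) := by
    intro w hw
    by_contra hcon
    have h0 : ∀ i < J, N1 (opN q (N (φ ((φ ^ i) w))) (P (φ ((φ ^ i) w))) (N ((φ ^ i) w))
        (P ((φ ^ i) w))) (opP q (P (φ ((φ ^ i) w))) (P ((φ ^ i) w))) = 0 := by
      intro i hi
      by_contra hne
      apply hcon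
      rw [Finset.mem_biUnion]
      refine ⟨i, Finset.mem_range.mpr hi, ?_⟩
      rw [Finset.mem_image]
      exact ⟨(φ ^ i) w, hZ' _ hne, by simp⟩
    have h1 := peel_iter φ N P hP hq w J h0
    apply hZ w hw
    have h2 : X ^ (q ^ J) ∣ N1 (N w) (P w) * expand L (q ^ J) (P ((φ ^ J) w)) ^ 2 := by
      rw [h1]
      exact ((expand_X_dvd (N1_eval_zero _ _)).mul_left _).mul_right _
    have h3 : X ^ (q ^ J) ∣ N1 (N w) (P w) := by
      refine X_pow_dvd_cancel ?_ h2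
      rw [eval_pow, expand_eval, zero_pow (pow_pos (by omega : 0 < q) J).ne']
      exact pow_ne_zero _ (hP _)
    by_contra hne
    have h4 := natDegree_le_of_dvd h3 hne
    rw [natDegree_X_pow] at h4
    have h5 := natDegree_N1_le (hN w) (hPd w)
    omega
  refine (Finset.card_le_card hsub).trans (Finset.card_biUnion_le.trans ?_)
  refine (Finset.sum_le_sum (fun i _ => Finset.card_image_le)).trans ?_
  simp

end Pool.Agent.CYE
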