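import Mathlib

/-! # Squad CYE (MP_734b60_nt, Theorem K), part E2: multilinear polynomials.  helper92. -/

set_option autoImplicit false

namespace Pool.Agent.CYE

/-- SZ (E2): a multilinear polynomial with nonzero constant coefficient has few zeros in a box.
`I` is a finite set of indices, `T i` the set of parameters of the index `i`, `x i` an injective
parametrisation of the values. -/
theorem sz {L : Type} [Field L] {ι : Type} [Fintype ι] [DecidableEq ι] (T : ι → Type)
    [∀ i, Fintype (T i)] [∀ i, DecidableEq (T i)] (x : ∀ i, T i → L)
    (hx : ∀ i, Function.Injective (x i)) (c : Finset ι → L) (hc : c ∅ ≠ 0) (I : Finset ι)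
    (Z : Finset (∀ i, T i))
    (hZ : ∀ s ∈ Z, ∑ S ∈ I.powerset, c S * ∏ i ∈ S, x i (s i) = 0) :
    ((Z.card : ℕ) : ℚ) ≤ (∑ i ∈ I, ((Fintype.card (T i) : ℕ) : ℚ)⁻¹) *
      ((Fintype.card (∀ i, T i) : ℕ) : ℚ) := by
  classical
  induction I using Finset.induction_on generalizing Z with
  | empty =>
    have : Z = ∅ := by
      rw [Finset.eq_empty_iff_forall_notMem]
      intro s hs
      have := hZ s hs
      simp only [Finset.powerset_empty, Finset.sum_singleton, Finset.prod_empty, mul_one] at this
      exact hc this
    rw [this]
    simp
  | insert a I ha ih =>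
    -- split the zeros according to the constant term in the variable `a`
    set P0 : (∀ i, T i) → L := fun s => ∑ S ∈ I.powerset, c S * ∏ i ∈ S, x i (s i) with hP0
    set P1 : (∀ i, T i) → L := fun s => ∑ S ∈ I.powerset, c (insert a S) * ∏ i ∈ S, x i (s i)
      with hP1
    have hsplit : ∀ s : (∀ i, T i),
        ∑ S ∈ (insert a I).powerset, c S * ∏ i ∈ S, x i (s i) = P0 s + x a (s a) * P1 s := by
      intro s
      rw [Finset.sum_powerset_insert ha, hP0, hP1, Finset.mul_sum]
      congr 1
      refine Finset.sum_congr rfl (fun S hS => ?_)
      have haS : a ∉ S := fun h => ha (Finset.mem_powerset.mp hS h)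
      rw [Finset.prod_insert haS]
      ring
    set Z0 := Z.filter (fun s => P0 s = 0) with hZ0
    set Z1 := Z.filter (fun s => P0 s ≠ 0) with hZ1
    have hZ0c := ih Z0 (fun s hs => (Finset.mem_filter.mp hs).2)
    -- for `s ∈ Z1` the value `x a (s a)` is determined by the other coordinates
    have hind : ∀ (s : ∀ i, T i) (v : T a), P0 (Function.update s a v) = P0 s ∧
        P1 (Function.update s a v) = P1 s := by
      intro s v
      have key : ∀ S ∈ I.powerset, ∏ i ∈ S, x i (Function.update s a v i) =
          ∏ i ∈ S, x i (s i) := by
        intro S hS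
        refine Finset.prod_congr rfl (fun i hi => ?_)
        have : i ≠ a := fun h => ha (h ▸ Finset.mem_powerset.mp hS hi)
        rw [Function.update_of_ne this]
      constructor
      · rw [hP0]
        exact Finset.sum_congr rfl (fun S hS => by rw [key S hS])
      · rw [hP1]
        exact Finset.sum_congr rfl (fun S hS => by rw [key S hS])
    have hZ1c : Z1.card * Fintype.card (T a) ≤ Fintype.card (∀ i, T i) := by
      rw [← Finset.card_univ (α := T a), ← Finset.card_product, ← Finset.card_univ]
      refine Finset.card_le_card_of_injOn (fun y => Function.update y.1 a y.2)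
        (fun _ _ => Finset.mem_coe.mpr (Finset.mem_univ _)) ?_
      rintro ⟨s, v⟩ h1 ⟨s', v'⟩ h2 heq
      have h1' : s ∈ Z1 := (Finset.mem_product.mp (Finset.mem_coe.mp h1)).1
      have h2' : s' ∈ Z1 := (Finset.mem_product.mp (Finset.mem_coe.mp h2)).1
      simp only at heq
      have hv : v = v' := by
        have := congrFun heq a
        simpa using this
      have hs : ∀ i, i ≠ a → s i = s' i := by
        intro i hi
        have := congrFun heq i
        simpa [Function.update_of_ne hi] using this
      have hup : Function.update s a (s' a) = s' := by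
        funext i
        by_cases hi : i = a
        · subst hi; simp
        · rw [Function.update_of_ne hi]; exact hs i hi
      have h3 := (Finset.mem_filter.mp h1').1
      have h4 := (Finset.mem_filter.mp h2').1
      have e1 := hZ s h3
      have e2 := hZ s' h4
      rw [hsplit] at e1 e2
      have e3 := hind s (s' a)
      rw [hup] at e3
      rw [e3.1, e3.2] at e2
      have hne : P0 s ≠ 0 := (Finset.mem_filter.mp h1').2
      have hP1ne : P1 s ≠ 0 := by
        intro h0
        rw [h0, mul_zero, add_zero] at e1
        exact hne e1
      have e4 : (x a (s a) - x a (s' a)) * P1 s = 0 := by linear_combination e1 - e2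
      have e5 : s a = s' a := hx a (sub_eq_zero.mp ((mul_eq_zero.mp e4).resolve_right hP1ne))
      have hss : s = s' := by
        funext i
        by_cases hi : i = a
        · subst hi; exact e5
        · exact hs i hi
      rw [hss, hv]
    have hsum : Z.card = Z0.card + Z1.card := by
      rw [hZ0, hZ1]
      exact (Finset.card_filter_add_card_filter_not (s := Z) (fun s => P0 s = 0)).symm
    rw [Finset.sum_insert ha, add_mul, hsum]
    push_cast
    have hZ1q : ((Z1.card : ℕ) : ℚ) ≤ ((Fintype.card (T a) : ℕ) : ℚ)⁻¹ *
        ((Fintype.card (∀ i, T i) : ℕ) : ℚ) := by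
      rcases Nat.eq_zero_or_pos (Fintype.card (T a)) with h0 | hpos
      · have : IsEmpty (∀ i, T i) := ⟨fun s => by
          have := Fintype.card_eq_zero_iff.mp h0
          exact this.false (s a)⟩
        have hz : Z1 = ∅ := Finset.eq_empty_of_isEmpty Z1
        rw [hz]
        simp
      · have hq : (0 : ℚ) < ((Fintype.card (T a) : ℕ) : ℚ) := by exact_mod_cast hpos
        rw [inv_mul_eq_div, le_div_iff₀ hq]
        exact_mod_cast hZ1c
    linarith

end Pool.Agent.CYE
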