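import Pool.Agent.CYE.StmtsD
import Pool.Agent.Helper92_CYE.Peel
import Pool.Agent.Helper92_CYE.Sz
import Pool.Agent.Helper92_CYE.Cnt

/-! # Squad CYE: rows PEL, SWZ, CNT.  helper92. -/

set_option autoImplicit false

open Polynomial

namespace Pool.Agent.CYE.H92

theorem pel : PelStmt := by
  intro ι _ _ q _ m g h L _ α i t J M Ω hst hinj hdeg hJ
  classical
  set B : Finset (Pt q × Pt q) := Ω.filter (fun w => ¬ Zr m g h α ((i, true) :: t) w) with hB
  set D : Finset (Pt q × Pt q) := Ω.filter (fun w => ¬ Zr m g h α t w) with hD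
  refine ⟨B, D, fun w => by rw [hB, Finset.mem_filter], fun w => by rw [hD, Finset.mem_filter], ?_⟩
  -- the permutation of the subtype
  let f : {w // w ∈ Ω} → {w // w ∈ Ω} := fun w => ⟨(fr i w.1.1, fr i w.1.2), hst w.1 w.2⟩
  have hf : Function.Injective f := by
    intro w w' hww
    have h1 := congrArg Subtype.val hww
    exact Subtype.ext (hinj w.1 w.2 w'.1 w'.2 (congrArg Prod.fst h1) (congrArg Prod.snd h1))
  let φ : Equiv.Perm {w // w ∈ Ω} := Equiv.ofBijective f (Finite.injective_iff_bijective.mp hf)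
  have hφ : ∀ w : {w // w ∈ Ω}, (φ w).1 = (fr i w.1.1, fr i w.1.2) := fun w => rfl
  have hq2 : 2 ≤ q i := (Fact.out : (q i).Prime).two_le
  have hqJ : 2 * M < q i ^ J := lt_of_lt_of_le hJ (Nat.pow_le_pow_left hq2 J)
  have key := peel φ (fun w => (FN m g h α t w.1.1 w.1.2).1) (fun w => (FN m g h α t w.1.1 w.1.2).2)
    M (fun w => by
      rw [← coeff_zero_eq_eval_zero]
      exact (hdeg w.1 w.2).2.2) (fun w => (hdeg w.1 w.2).1) (fun w => (hdeg w.1 w.2).2.1) hq2 hqJ
    (Finset.univ.filter (fun w : {w // w ∈ Ω} => w.1 ∈ D))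
    (Finset.univ.filter (fun w : {w // w ∈ Ω} => w.1 ∈ B))
    (fun w hw => by
      have h1 := (Finset.mem_filter.mp hw).2
      rw [hD, Finset.mem_filter] at h1
      exact h1.2)
    (fun w hw => by
      rw [Finset.mem_filter]
      refine ⟨Finset.mem_univ _, ?_⟩
      rw [hB, Finset.mem_filter]
      refine ⟨w.2, fun h0 => hw ?_⟩
      exact h0)
  have c1 : D.card = (Finset.univ.filter (fun w : {w // w ∈ Ω} => w.1 ∈ D)).card := by
    symm
    refine Finset.card_bij (fun w _ => w.1) (fun w hw => (Finset.mem_filter.mp hw).2)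
      (fun w _ w' _ h => Subtype.ext h) (fun w hw => ?_)
    have hwΩ : w ∈ Ω := by
      rw [hD, Finset.mem_filter] at hw
      exact hw.1
    exact ⟨⟨w, hwΩ⟩, Finset.mem_filter.mpr ⟨Finset.mem_univ _, hw⟩, rfl⟩
  have c2 : (Finset.univ.filter (fun w : {w // w ∈ Ω} => w.1 ∈ B)).card = B.card := by
    refine Finset.card_bij (fun w _ => w.1) (fun w hw => (Finset.mem_filter.mp hw).2)
      (fun w _ w' _ h => Subtype.ext h) (fun w hw => ?_)
    have hwΩ : w ∈ Ω := by
      rw [hB, Finset.mem_filter] at hw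
      exact hw.1
    exact ⟨⟨w, hwΩ⟩, Finset.mem_filter.mpr ⟨Finset.mem_univ _, hw⟩, rfl⟩
  rw [c1, ← c2]
  exact key

theorem swz : SwzStmt := by
  intro ι _ _ q _ L _ α hα lg hlg k hk w hw S hS
  classical
  let T : ι → Type := fun i => {v : ZMod (q i) // (i ∈ lg → v ≠ 0) ∧ (i ∉ lg → v = 0)}
  let x : ∀ i, T i → L := fun i v => (α i ^ (v.1).val) ^ k
  have hx : ∀ i, Function.Injective (x i) := by
    intro i v v' hvv
    by_cases hi : i ∈ lg
    · apply Subtype.ext
      have h1 : (α i ^ k) ^ (v.1).val = (α i ^ k) ^ (v'.1).val := by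
        have h2 : (α i ^ (v.1).val) ^ k = (α i ^ (v'.1).val) ^ k := hvv
        rw [← pow_mul, ← pow_mul, mul_comm k, mul_comm k, pow_mul, pow_mul]
        exact h2
      have hq : (q i).Prime := Fact.out
      have hprim : IsPrimitiveRoot (α i ^ k) (q i) :=
        (hα i).pow_of_coprime k ((Nat.Prime.coprime_iff_not_dvd hq).mpr (hk i hi)).symm
      have h3 := hprim.pow_inj (ZMod.val_lt v.1) (ZMod.val_lt v'.1) h1
      exact ZMod.val_injective (q i) h3
    · exact Subtype.ext ((v.2.2 hi).trans (v'.2.2 hi).symm)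
  -- the finset of sections
  let toPt : (∀ i, T i) → Pt q := fun s i => (s i).1
  have htoPt : Function.Injective toPt := by
    intro s s' h
    funext i
    exact Subtype.ext (congrFun h i)
  have hmemSv : ∀ s : Pt q, s ∈ Sv q lg ↔ ∃ s' : (∀ i, T i), toPt s' = s := by
    intro s
    constructor
    · intro hs
      have h1 := (Finset.mem_filter.mp hs).2
      exact ⟨fun i => ⟨s i, h1 i⟩, rfl⟩
    · rintro ⟨s', rfl⟩
      exact Finset.mem_filter.mpr ⟨Finset.mem_univ _, fun i => (s' i).2⟩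
  have key := sz T x hx (fun R => (-1) ^ R.card * w R) (by simpa using hw) lg.toFinset
    (Finset.univ.filter (fun s : (∀ i, T i) => toPt s ∈ S))
    (fun s hs => by
      have h1 := (hS _ (Finset.mem_filter.mp hs).2).2
      rw [← h1]
      refine Finset.sum_congr rfl (fun R _ => ?_)
      rw [mul_assoc])
  have c1 : (Finset.univ.filter (fun s : (∀ i, T i) => toPt s ∈ S)).card = S.card := by
    refine Finset.card_bij (fun s _ => toPt s) (fun s hs => (Finset.mem_filter.mp hs).2)
      (fun s _ s' _ h => htoPt h) (fun s hs => ?_)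
    obtain ⟨s', hs'⟩ := (hmemSv s).mp (hS s hs).1
    exact ⟨s', Finset.mem_filter.mpr ⟨Finset.mem_univ _, by rw [hs']; exact hs⟩, hs'⟩
  have c2 : Fintype.card (∀ i, T i) = (Sv q lg).card := by
    rw [← Finset.card_univ]
    refine Finset.card_bij (fun s _ => toPt s) (fun s _ => (hmemSv _).mpr ⟨s, rfl⟩)
      (fun s _ s' _ h => htoPt h) (fun s hs => ?_)
    obtain ⟨s', hs'⟩ := (hmemSv s).mp hs
    exact ⟨s', Finset.mem_univ _, hs'⟩
  have c3 : ∀ i ∈ lg.toFinset, ((Fintype.card (T i) : ℕ) : ℚ)⁻¹ = 1 / ((q i : ℚ) - 1) := by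
    intro i hi
    have hi' : i ∈ lg := List.mem_toFinset.mp hi
    have hcard : Fintype.card (T i) = q i - 1 := by
      have : Fintype.card (T i) = Fintype.card {v : ZMod (q i) // v ≠ 0} :=
        Fintype.card_congr (Equiv.subtypeEquivRight (fun v => by
          constructor
          · intro h; exact h.1 hi'
          · intro h; exact ⟨fun _ => h, fun h' => absurd hi' h'⟩))
      rw [this, Fintype.card_subtype_compl, ZMod.card]
      simp
    rw [hcard, one_div, Nat.cast_sub (Fact.out : (q i).Prime).one_le, Nat.cast_one]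
  rw [c1, c2, Finset.sum_congr rfl c3] at key
  have h4 : ((S.card : ℚ) : ℝ) ≤ (((∑ i ∈ lg.toFinset, 1 / ((q i : ℚ) - 1)) *
      ((Sv q lg).card : ℚ) : ℚ) : ℝ) := by exact_mod_cast key
  push_cast at h4
  rw [← List.sum_toFinset _ hlg]
  exact h4

theorem cnt_row : CntStmt := by
  intro β σ _ _ U Sg R Gs Bd ty hU hSg hR1 hR2 hG hBd hty
  classical
  have : Nonempty {b // b ∈ U} := ⟨⟨hU.choose, hU.choose_spec⟩⟩
  have cU : Fintype.card {b // b ∈ U} = U.card := Fintype.card_coe U
  have cS : Fintype.card {s // s ∈ Sg} = Sg.card := Fintype.card_coe Sg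
  -- transport of cardinalities
  have tU : ∀ F : Finset {b // b ∈ U}, (F.image Subtype.val).card = F.card := fun F =>
    Finset.card_image_of_injective F Subtype.val_injective
  have tS : ∀ F : Finset {s // s ∈ Sg}, (F.image Subtype.val).card = F.card := fun F =>
    Finset.card_image_of_injective F Subtype.val_injective
  let B : {s // s ∈ Sg} → Finset {b // b ∈ U} := fun s => Finset.univ.filter (fun b => R b.1 s.1)
  let A : {s // s ∈ Sg} → Finset {b // b ∈ U} := fun s =>
    Finset.univ.filter (fun b => R b.1 s.1 ∧ (b.1, s.1) ∉ Bd)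
  have hAB : ∀ s, A s ⊆ B s := fun s b hb =>
    Finset.mem_filter.mpr ⟨Finset.mem_univ _, (Finset.mem_filter.mp hb).2.1⟩
  have hsum : ∑ s, (B s \ A s).card ≤ Bd.card := by
    have h1 : ∑ s, (B s \ A s).card =
        (Finset.univ.sigma (fun s : {s // s ∈ Sg} => B s \ A s)).card := by
      rw [Finset.card_sigma]
    rw [h1]
    refine Finset.card_le_card_of_injOn (fun y => (y.2.1, y.1.1)) ?_ ?_
    · rintro ⟨s, b⟩ hy
      have h2 := (Finset.mem_sigma.mp (Finset.mem_coe.mp hy)).2
      rw [Finset.mem_sdiff] at h2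
      have h3 := (Finset.mem_filter.mp h2.1).2
      by_contra hcon
      exact h2.2 (Finset.mem_filter.mpr ⟨Finset.mem_univ _, h3, fun h => hcon h⟩)
    · rintro ⟨s, b⟩ _ ⟨s', b'⟩ _ h
      have e1 : b.1 = b'.1 := congrArg Prod.fst h
      have e2 : s.1 = s'.1 := congrArg Prod.snd h
      have e3 : s = s' := Subtype.ext e2
      have e4 : b = b' := Subtype.ext e1
      subst e3
      subst e4
      rfl
  obtain ⟨x, hx⟩ := cnt A B hAB (Finset.univ.filter (fun s => Gs s.1)) (fun b => ty b.1)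
    (fun s hs b hb b' hb' => by
      have h1 := (Finset.mem_filter.mp hb).2
      have h2 := (Finset.mem_filter.mp hb').2
      exact hty s.1 s.2 (Finset.mem_filter.mp hs).2 b.1 b.2 b'.1 b'.2 h1.1 h2.1 h1.2 h2.2)
    (by
      rw [cS, ← tS]
      refine hG _ (fun s hs => ?_)
      obtain ⟨s', hs', rfl⟩ := Finset.mem_image.mp hs
      rw [Finset.mem_sdiff] at hs'
      exact ⟨s'.2, fun h => hs'.2 (Finset.mem_filter.mpr ⟨Finset.mem_univ _, h⟩)⟩)
    (by
      intro s
      have h1 := hR1 s.1 s.2 ((Finset.univ \ B s).image Subtype.val) (fun b hb => by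
        obtain ⟨b', hb', rfl⟩ := Finset.mem_image.mp hb
        rw [Finset.mem_sdiff] at hb'
        exact ⟨b'.2, fun h => hb'.2 (Finset.mem_filter.mpr ⟨Finset.mem_univ _, h⟩)⟩)
      rw [tU] at h1
      have h2 := Finset.card_sdiff_add_card_eq_card (Finset.subset_univ (B s))
      rw [Finset.card_univ] at h2
      omega)
    (by
      intro b
      rw [cS, ← tS]
      refine hR2 b.1 b.2 _ (fun s hs => ?_)
      obtain ⟨s', hs', rfl⟩ := Finset.mem_image.mp hs
      have h1 := (Finset.mem_filter.mp hs').2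
      exact ⟨s'.2, fun h => h1 (Finset.mem_filter.mpr ⟨Finset.mem_univ _, h⟩)⟩)
    (by
      rw [cU, cS]
      exact (Nat.mul_le_mul_left _ hsum).trans hBd)
  refine ⟨x, fun S hS => ?_⟩
  have h1 : S.card ≤ (Finset.univ.filter (fun b : {b // b ∈ U} => ty b.1 ≠ x)).card := by
    rw [← tU]
    refine Finset.card_le_card (fun b hb => ?_)
    rw [Finset.mem_image]
    exact ⟨⟨b, (hS b hb).1⟩, Finset.mem_filter.mpr ⟨Finset.mem_univ _, (hS b hb).2⟩, rfl⟩
  rw [cS] at hx
  calc S.card * Sg.card ≤ (Finset.univ.filter (fun b : {b // b ∈ U} => ty b.1 ≠ x)).card *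
        Sg.card := Nat.mul_le_mul_right _ h1
    _ = Sg.card * (Finset.univ.filter (fun b : {b // b ∈ U} => ty b.1 ≠ x)).card := by ring
    _ ≤ 2 * ∑ s, (B s \ A s).card := hx
    _ ≤ 2 * Bd.card := Nat.mul_le_mul_left _ hsum

end Pool.Agent.CYE.H92
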