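import Pool.Agent.Helper92_CYE.Sch

/-! # Squad CYE (MP_734b60_nt, Theorem K), part C1: the local order of the Schwarzian.  helper92. -/

set_option autoImplicit false

open Polynomial

namespace Pool.Agent.CYE

variable {L : Type} [Field L]

theorem X1_ne : (X - 1 : L[X]) ≠ 0 := by
  rw [show (1 : L[X]) = C 1 from (map_one C).symm]
  exact X_sub_C_ne_zero 1

theorem X1_dvd_iff (f : L[X]) : (X - 1 : L[X]) ∣ f ↔ f.eval 1 = 0 := by
  rw [show (1 : L[X]) = C 1 from (map_one C).symm, dvd_iff_isRoot, IsRoot.def]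

theorem X1_prime : Prime (X - 1 : L[X]) := by
  rw [show (1 : L[X]) = C 1 from (map_one C).symm]
  exact prime_X_sub_C 1

/-- Cancel a factor which does not vanish at `1`. -/
theorem X1_pow_dvd_cancel {k : ℕ} {f g : L[X]} (hf : f.eval 1 ≠ 0)
    (h : (X - 1) ^ k ∣ f * g) : (X - 1) ^ k ∣ g := by
  have h1 : ¬ (X - 1 : L[X]) ∣ f := fun h2 => hf ((X1_dvd_iff f).mp h2)
  have h2 : IsCoprime ((X - 1 : L[X]) ^ k) f :=
    IsCoprime.pow_left ((X1_prime (L := L)).coprime_iff_not_dvd.mpr h1)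
  exact h2.dvd_of_dvd_mul_left h

theorem der_X1_pow_mul (l : ℕ) (f : L[X]) :
    (X - 1) * der ((X - 1) ^ l * f) = (X - 1) ^ l * ((l : L[X]) * X * f + (X - 1) * der f) := by
  rcases l with _ | l
  · simp
  · rw [der_mul, der_pow]
    have : der (X - 1 : L[X]) = X := by simp [der]
    rw [this]
    push_cast
    ring

theorem X1_pow_dvd_der {k : ℕ} {f : L[X]} (h : (X - 1) ^ k ∣ f) : (X - 1) ^ (k - 1) ∣ der f := by
  rcases k with _ | k
  · simp
  · obtain ⟨g, rfl⟩ := h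
    rw [Nat.add_sub_cancel, der_mul, der_pow]
    refine dvd_add ?_ ?_
    · exact ((Dvd.intro_left _ rfl).mul_right _).mul_right _
    · exact (pow_dvd_pow _ (Nat.le_succ k)).mul_right _

theorem N1_sub (V V' W : L[X]) : N1 (V - V') W = N1 V W - N1 V' W := by
  simp only [N1, der_sub]; ring

theorem N2_sub (V V' W : L[X]) : N2 (V - V') W = N2 V W - N2 V' W := by
  simp only [N2, N1_sub, der_sub]; ring

theorem N3_sub (V V' W : L[X]) : N3 (V - V') W = N3 V W - N3 V' W := by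
  simp only [N3, N2_sub, der_sub]; ring

/-- The Schwarzians of two congruent numerators. -/
theorem Sch_congr {k : ℕ} {V V' W : L[X]} (h : (X - 1) ^ k ∣ V - V') :
    (X - 1) ^ (k - 3) ∣ Sch V W - Sch V' W := by
  have h1 : (X - 1) ^ (k - 1) ∣ N1 (V - V') W := by
    unfold N1
    refine dvd_sub ((X1_pow_dvd_der h).mul_right _) ?_
    exact ((pow_dvd_pow _ (by omega : k - 1 ≤ k)).trans h).mul_right _
  have h2 : (X - 1) ^ (k - 2) ∣ N2 (V - V') W := by
    unfold N2
    have a := X1_pow_dvd_der h1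
    rw [show k - 1 - 1 = k - 2 by omega] at a
    refine dvd_sub (a.mul_right _) ?_
    exact (((pow_dvd_pow _ (by omega : k - 2 ≤ k - 1)).trans h1).mul_left _).mul_right _
  have h3 : (X - 1) ^ (k - 3) ∣ N3 (V - V') W := by
    unfold N3
    have a := X1_pow_dvd_der h2
    rw [show k - 2 - 1 = k - 3 by omega] at a
    refine dvd_sub (a.mul_right _) ?_
    exact (((pow_dvd_pow _ (by omega : k - 3 ≤ k - 2)).trans h2).mul_left _).mul_right _
  have h1' := (pow_dvd_pow (X - 1 : L[X]) (by omega : k - 3 ≤ k - 1)).trans h1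
  have h2' := (pow_dvd_pow (X - 1 : L[X]) (by omega : k - 3 ≤ k - 2)).trans h2
  have e : Sch V W - Sch V' W =
      2 * (N1 (V - V') W * N3 V W + N1 V' W * N3 (V - V') W) -
        3 * (N2 (V - V') W * (N2 V W + N2 V' W)) := by
    rw [N1_sub, N2_sub, N3_sub]
    unfold Sch
    ring
  rw [e]
  refine dvd_sub (Dvd.dvd.mul_left (dvd_add (h1'.mul_right _) (h3.mul_left _)) _) ?_
  exact (h2'.mul_right _).mul_left _

/-- The defect of the equation `t F(X ^ t) - F(X) = c`, `F = N / P`. -/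
noncomputable def Def (t : ℕ) (c : L) (N P : L[X]) : L[X] :=
  C (t : L) * expand L t N * P - N * expand L t P - C c * P * expand L t P

theorem Def_mul (t : ℕ) (c : L) (G N P : L[X]) :
    Def t c (G * N) (G * P) = G * expand L t G * Def t c N P := by
  unfold Def
  simp only [map_mul]
  ring

/-- `X ^ t - 1 = (X - 1) τ` with `τ(1) = t`. -/
theorem exists_tau (t : ℕ) : ∃ τ : L[X], (X : L[X]) ^ t - 1 = (X - 1) * τ ∧ τ.eval 1 = t := by
  refine ⟨∑ i ∈ Finset.range t, X ^ i, ?_, ?_⟩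
  · rw [mul_comm]
    exact (geom_sum_mul X t).symm
  · simp [eval_finsetSum]

theorem expand_X1 (t : ℕ) : expand L t (X - 1) = X ^ t - 1 := by simp

/-- The Schwarzian at a simple pole vanishes. -/
theorem Sch_eval_pole {A B1 : L[X]} : (Sch A ((X - 1) * B1)).eval 1 = 0 := by
  have hB : ((X - 1) * B1 : L[X]).eval 1 = 0 := by simp
  have e1 : (N1 A ((X - 1) * B1)).eval 1 = - (A.eval 1 * (der ((X - 1) * B1)).eval 1) := by
    unfold N1; simp only [eval_sub, eval_mul, hB]; ring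
  have e2 : (N2 A ((X - 1) * B1)).eval 1 =
      2 * (A.eval 1 * (der ((X - 1) * B1)).eval 1 ^ 2) := by
    unfold N2; simp only [eval_sub, eval_mul, hB, e1, eval_ofNat]; ring
  have e3 : (N3 A ((X - 1) * B1)).eval 1 =
      - 6 * (A.eval 1 * (der ((X - 1) * B1)).eval 1 ^ 3) := by
    unfold N3; simp only [eval_sub, eval_mul, hB, e2, eval_ofNat]; ring
  unfold Sch
  simp only [eval_sub, eval_mul, eval_pow, eval_ofNat, e1, e2, e3]
  ring

/-- The core: simple pole at `1`. -/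
theorem Sch_core {p : ℕ} (t : ℕ) (ht : orderOf (t : L) = p - 1) (hp : 2 ≤ p)
    (c : L) {A B1 : L[X]} (hB1 : B1.eval 1 ≠ 0) {k : ℕ} (hk : k ≤ p + 8)
    (h : (X - 1) ^ k ∣ Def t c A ((X - 1) * B1)) :
    (X - 1) ^ (k - 9) ∣ Sch A ((X - 1) * B1) := by
  have ht0 : (t : L) ≠ 0 := by
    intro h0
    rw [h0] at ht
    have h1 := pow_orderOf_eq_one (0 : L)
    rw [ht, zero_pow (by omega)] at h1
    exact zero_ne_one h1
  set B := (X - 1) * B1 with hB
  set S := Sch A B with hS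
  obtain ⟨τ, hτ, hτ1⟩ := exists_tau (L := L) t
  have heB : expand L t B = (X - 1) * (τ * expand L t B1) := by
    rw [hB, map_mul, expand_X1, hτ]; ring
  -- the two representations
  have h1 : (X - 1) ^ k ∣ C (t : L) * expand L t A * B - (A + C c * B) * expand L t B := by
    have : C (t : L) * expand L t A * B - (A + C c * B) * expand L t B = Def t c A B := by
      unfold Def; ring
    rw [this]
    exact h
  have h2 := Sch_congr (W := B * expand L t B) h1
  have e1 : Sch (C (t : L) * expand L t A * B) (B * expand L t B) =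
      B ^ 6 * (C ((t : L) ^ 6) * expand L t S) := by
    rw [mul_comm (C (t : L) * expand L t A) B, Sch_mul, Sch_expand]
  have e2 : Sch ((A + C c * B) * expand L t B) (B * expand L t B) =
      expand L t B ^ 6 * S := by
    rw [mul_comm (A + C c * B), mul_comm B, Sch_mul, Sch_addC]
  rw [e1, e2] at h2
  -- divide by (X - 1) ^ 6
  set Z := C ((t : L) ^ 6) * expand L t S * B1 ^ 6 - (τ * expand L t B1) ^ 6 * S with hZ
  have e3 : B ^ 6 * (C ((t : L) ^ 6) * expand L t S) - expand L t B ^ 6 * S =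
      (X - 1) ^ 6 * Z := by
    rw [heB, hB, hZ]; ring
  rw [e3] at h2
  have h3 : (X - 1) ^ (k - 9) ∣ Z := by
    rcases Nat.lt_or_ge k 9 with h9 | h9
    · rw [show k - 9 = 0 by omega]
      simp
    · have : (X - 1 : L[X]) ^ (k - 3) = (X - 1) ^ 6 * (X - 1) ^ (k - 9) := by
        rw [← pow_add]; congr 1; omega
      rw [this] at h2
      exact (mul_dvd_mul_iff_left (pow_ne_zero 6 X1_ne)).mp h2
  by_cases hS0 : S = 0
  · rw [hS0]; exact dvd_zero _
  obtain ⟨S1, hS1, hS10⟩ := exists_eq_pow_rootMultiplicity_mul_and_not_dvd S hS0 1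
  rw [map_one] at hS1 hS10
  set i := rootMultiplicity 1 S with hi
  have hS1e : S1.eval 1 ≠ 0 := fun h0 => hS10 ((X1_dvd_iff S1).mpr h0)
  by_cases hik : k - 9 ≤ i
  · rw [hS1]
    exact (pow_dvd_pow _ hik).mul_right _
  exfalso
  push Not at hik
  have hi1 : 1 ≤ i := by
    by_contra h0
    have hi0 : i = 0 := by omega
    rw [hi0, pow_zero, one_mul] at hS1
    apply hS1e
    rw [← hS1, hS, hB]
    exact Sch_eval_pole
  have e4 : Z = (X - 1) ^ i *
      (C ((t : L) ^ 6) * (τ ^ i * expand L t S1) * B1 ^ 6 - (τ * expand L t B1) ^ 6 * S1) := by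
    rw [hZ, hS1]
    simp only [map_mul, map_pow, expand_X1, hτ, mul_pow]
    ring
  have h4 : (X - 1) ^ (i + 1) ∣ Z := (pow_dvd_pow _ hik).trans h3
  rw [e4, pow_succ] at h4
  have h5 := (mul_dvd_mul_iff_left (pow_ne_zero i X1_ne)).mp h4
  rw [X1_dvd_iff] at h5
  have hex : ∀ f : L[X], (expand L t f).eval 1 = f.eval 1 := fun f => by
    rw [expand_eval, one_pow]
  simp only [eval_sub, eval_mul, eval_pow, eval_C, hτ1, hex] at h5
  have h6 : (t : L) ^ 6 * S1.eval 1 * B1.eval 1 ^ 6 * ((t : L) ^ i - 1) = 0 := by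
    linear_combination h5
  have h7 : (t : L) ^ i = 1 := by
    have a : (t : L) ^ 6 * S1.eval 1 * B1.eval 1 ^ 6 ≠ 0 :=
      mul_ne_zero (mul_ne_zero (pow_ne_zero _ ht0) hS1e) (pow_ne_zero _ hB1)
    exact sub_eq_zero.mp ((mul_eq_zero.mp h6).resolve_left a)
  have h8 : p - 1 ∣ i := ht ▸ orderOf_dvd_of_pow_eq_one h7
  have h9 := Nat.le_of_dvd hi1 h8
  omega

/-- C1: from `t F(X ^ t) - F(X) = c + O((X - 1) ^ P1)` (as an equation of numerators, `F = N / P` with
at most the pole order forced by `B6`) to the order of the Schwarzian. -/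
theorem Sch_local {p : ℕ} (t : ℕ) (ht : orderOf (t : L) = p - 1) (hp : 2 ≤ p)
    (c : L) {N P : L[X]} (hP : P ≠ 0)
    (hsp : (X - 1) ^ rootMultiplicity 1 P ∣ (X - 1) * N) {k : ℕ} (hk : k ≤ p)
    (h : (X - 1) ^ k ∣ Def t c N P) :
    (X - 1) ^ (k - 13) ∣ Sch N P := by
  have ht0 : (t : L) ≠ 0 := by
    intro h0
    rw [h0] at ht
    have h1 := pow_orderOf_eq_one (0 : L)
    rw [ht, zero_pow (by omega)] at h1
    exact zero_ne_one h1
  obtain ⟨B1, hB1, hB10⟩ := exists_eq_pow_rootMultiplicity_mul_and_not_dvd P hP 1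
  rw [map_one] at hB1 hB10
  set ν := rootMultiplicity 1 P with hν
  have hB1e : B1.eval 1 ≠ 0 := fun h0 => hB10 ((X1_dvd_iff B1).mpr h0)
  obtain ⟨A, hA⟩ := hsp
  have hPB : (X - 1) * P = (X - 1) ^ ν * ((X - 1) * B1) := by rw [hB1]; ring
  obtain ⟨τ, hτ, hτ1⟩ := exists_tau (L := L) t
  have hτ0 : τ.eval 1 ≠ 0 := by rw [hτ1]; exact ht0
  -- the defects
  have e1 : (X - 1) * (X ^ t - 1) * Def t c N P =
      (X - 1) ^ ν * (X ^ t - 1) ^ ν * Def t c A ((X - 1) * B1) := by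
    have a := Def_mul t c (X - 1) N P
    rw [expand_X1] at a
    rw [← a, hA, hPB, Def_mul]
    simp only [map_pow, expand_X1]
  have e2 : (X - 1) ^ (2 * ν) * (τ ^ ν * Def t c A ((X - 1) * B1)) =
      (X - 1) ^ 2 * (τ * Def t c N P) := by
    have b : (X - 1) ^ (2 * ν) * (τ ^ ν * Def t c A ((X - 1) * B1)) =
        (X - 1) ^ ν * (X ^ t - 1) ^ ν * Def t c A ((X - 1) * B1) := by
      rw [hτ, mul_pow, two_mul, pow_add]; ring
    rw [b, ← e1, hτ]; ring
  have h1 : (X - 1) ^ (k + 2) ∣ (X - 1) ^ (2 * ν) * (τ ^ ν * Def t c A ((X - 1) * B1)) := by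
    rw [e2, pow_add, mul_comm ((X - 1 : L[X]) ^ k)]
    exact mul_dvd_mul_left _ (h.mul_left _)
  have h2 : (X - 1) ^ (k + 2 - 2 * ν) ∣ Def t c A ((X - 1) * B1) := by
    rcases Nat.lt_or_ge (k + 2) (2 * ν) with h9 | h9
    · rw [show k + 2 - 2 * ν = 0 by omega]
      simp
    · have : (X - 1 : L[X]) ^ (k + 2) = (X - 1) ^ (2 * ν) * (X - 1) ^ (k + 2 - 2 * ν) := by
        rw [← pow_add]; congr 1; omega
      rw [this] at h1
      have h3 := (mul_dvd_mul_iff_left (pow_ne_zero (2 * ν) X1_ne)).mp h1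
      refine X1_pow_dvd_cancel (f := τ ^ ν) ?_ h3
      rw [eval_pow]
      exact pow_ne_zero _ hτ0
  have h3 := Sch_core t ht hp c hB1e (by omega : k + 2 - 2 * ν ≤ p + 8) h2
  -- back to N, P
  have e3 : (X - 1) ^ 6 * Sch N P = (X - 1) ^ (6 * ν) * Sch A ((X - 1) * B1) := by
    rw [← Sch_mul, hA, hPB, Sch_mul, ← pow_mul, mul_comm ν 6]
  have h4 : (X - 1) ^ (6 * ν + (k + 2 - 2 * ν - 9)) ∣ (X - 1) ^ 6 * Sch N P := by
    rw [e3, pow_add]
    exact mul_dvd_mul_left _ h3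
  rcases Nat.lt_or_ge k 13 with h13 | h13
  · rw [show k - 13 = 0 by omega]
    simp
  · have h5 : (X - 1 : L[X]) ^ (6 + (k - 13)) ∣ (X - 1) ^ 6 * Sch N P :=
      (pow_dvd_pow _ (by omega)).trans h4
    rw [pow_add] at h5
    exact (mul_dvd_mul_iff_left (pow_ne_zero 6 X1_ne)).mp h5

end Pool.Agent.CYE
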