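import Pool.Agent.CYE.StmtsC
import Pool.Agent.Helper92_CYE.SchLoc

/-! # Squad CYE: rows SCI, SCV, SCH, VAN.  helper92. -/

set_option autoImplicit false

open Polynomial

namespace Pool.Agent.CYE.H92

variable {L : Type} [Field L]

theorem dX_eq (f : L[X]) : dX f = der f := rfl

theorem w1_eq (N P : L[X]) : w1 N P = N1 N P := rfl

theorem SS_eq (N P : L[X]) : SS N P = Sch N P := rfl

theorem der_comp (x : L) (f : L[X]) :
    der (f.comp (C x * X)) = (der f).comp (C x * X) := by
  simp only [der, derivative_comp, derivative_C_mul, derivative_X, mul_comp, X_comp]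
  ring

theorem N1_comp (x : L) (N P : L[X]) :
    N1 (N.comp (C x * X)) (P.comp (C x * X)) = (N1 N P).comp (C x * X) := by
  simp only [N1, der_comp, sub_comp, mul_comp]

theorem N2_comp (x : L) (N P : L[X]) :
    N2 (N.comp (C x * X)) (P.comp (C x * X)) = (N2 N P).comp (C x * X) := by
  have h2 : ((2 : L[X]).comp (C x * X)) = 2 := by
    rw [show (2 : L[X]) = C (2 : L) from (map_ofNat C 2).symm, C_comp]
  unfold N2
  rw [N1_comp, der_comp, der_comp, sub_comp, mul_comp, mul_comp, mul_comp, h2]

theorem N3_comp (x : L) (N P : L[X]) :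
    N3 (N.comp (C x * X)) (P.comp (C x * X)) = (N3 N P).comp (C x * X) := by
  have h3 : ((3 : L[X]).comp (C x * X)) = 3 := by
    rw [show (3 : L[X]) = C (3 : L) from (map_ofNat C 3).symm, C_comp]
  unfold N3
  rw [N2_comp, der_comp, der_comp, sub_comp, mul_comp, mul_comp, mul_comp, h3]

theorem Sch_comp (x : L) (N P : L[X]) :
    Sch (N.comp (C x * X)) (P.comp (C x * X)) = (Sch N P).comp (C x * X) := by
  have h2 : ((2 : L[X]).comp (C x * X)) = 2 := by
    rw [show (2 : L[X]) = C (2 : L) from (map_ofNat C 2).symm, C_comp]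
  have h3 : ((3 : L[X]).comp (C x * X)) = 3 := by
    rw [show (3 : L[X]) = C (3 : L) from (map_ofNat C 3).symm, C_comp]
  unfold Sch
  rw [N1_comp, N2_comp, N3_comp, sub_comp, mul_comp, mul_comp, mul_comp, pow_comp, h2, h3]

theorem sci : SciStmt := by
  intro L _ N P G E c x t k M
  refine ⟨Sch_mul G N P, Sch_addC c N P, fun _ => Sch_expand t N P, Sch_comp x N P,
    N1_comp x N P, fun hN hP => ⟨natDegree_Sch_le hN hP, natDegree_N1_le hN hP⟩, fun hE => ?_⟩
  have h := Sch_congr (V := N + E) (V' := N) (W := P) (k := k) (by rw [add_sub_cancel_left]; exact hE)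
  exact h

theorem scv : ScvStmt := by
  intro L _ N P hP
  have h1 : (X - 1 : L[X]) ∣ P := (X1_dvd_iff P).mpr hP
  obtain ⟨B1, rfl⟩ := h1
  exact Sch_eval_pole

theorem sch : SchStmt := by
  intro L _ p _ t N P c P1 hp hp5 ht hP hsp hP1 h
  have : Fact p.Prime := ⟨hp⟩
  have ht' : orderOf (t : L) = p - 1 := by
    have hinj : Function.Injective (ZMod.castHom (dvd_refl p) L) :=
      (ZMod.castHom (dvd_refl p) L).injective
    have h1 := orderOf_injective (ZMod.castHom (dvd_refl p) L : ZMod p →* L) hinj (t : ZMod p)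
    rw [← ht, ← h1]
    congr 1
    simp
  have h2 : (X - 1) ^ P1 ∣ Def t c N P := by
    have : Def t c N P = C (t : L) * expand L t N * P - N * expand L t P -
        C c * (expand L t P * P) := by
      unfold Def; ring
    rw [this]
    exact h
  exact Sch_local t ht' hp.two_le c hP hsp (by omega) h2

theorem van : VanStmt := by
  intro L _ p _ N P _ hP hS
  exact N1_eq_zero_of_Sch hS (by rwa [← coeff_zero_eq_eval_zero])

end Pool.Agent.CYE.H92
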