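import Mathlib

/-! # Squad CYE (MP_734b60_nt, Theorem K), part C: the Schwarzian.  helper92.
`der f = X f'`.  For `F = N / P` the polynomials `N1, N2, N3` are the numerators of the first three
logarithmic derivatives of `F`, and `Sch = P ^ 6 (2 F' F''' - 3 F'' ^ 2)`. -/

set_option autoImplicit false

open Polynomial

namespace Pool.Agent.CYE

variable {L : Type} [Field L]

/-- The Euler derivation `X d/dX`. -/
noncomputable def der (f : L[X]) : L[X] := X * derivative f

/-- Numerator of `D (N / P)`, denominator `P ^ 2`. -/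
noncomputable def N1 (N P : L[X]) : L[X] := der N * P - N * der P

/-- Numerator of `D ^ 2 (N / P)`, denominator `P ^ 3`. -/
noncomputable def N2 (N P : L[X]) : L[X] := der (N1 N P) * P - 2 * N1 N P * der P

/-- Numerator of `D ^ 3 (N / P)`, denominator `P ^ 4`. -/
noncomputable def N3 (N P : L[X]) : L[X] := der (N2 N P) * P - 3 * N2 N P * der P

/-- `P ^ 6 (2 F' F''' - 3 F'' ^ 2)` for `F = N / P`. -/
noncomputable def Sch (N P : L[X]) : L[X] := 2 * N1 N P * N3 N P - 3 * N2 N P ^ 2

theorem der_add (f g : L[X]) : der (f + g) = der f + der g := by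
  simp only [der, derivative_add]; ring

theorem der_sub (f g : L[X]) : der (f - g) = der f - der g := by
  simp only [der, derivative_sub]; ring

theorem der_mul (f g : L[X]) : der (f * g) = der f * g + f * der g := by
  simp only [der, derivative_mul]; ring

theorem der_C (c : L) : der (C c) = 0 := by simp [der]

theorem der_pow (f : L[X]) (k : ℕ) : der (f ^ (k + 1)) = ((k : L[X]) + 1) * f ^ k * der f := by
  simp only [der, derivative_pow_succ]
  simp only [map_add, map_natCast, map_one]
  ring

theorem der_expand (t : ℕ) (f : L[X]) :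
    der (expand L t f) = C (t : L) * expand L t (der f) := by
  rcases Nat.eq_zero_or_pos t with rfl | ht
  · simp [der, expand_zero]
  · obtain ⟨s, rfl⟩ : ∃ s, t = s + 1 := ⟨t - 1, by omega⟩
    simp only [der, derivative_expand, map_mul, expand_X, Nat.add_sub_cancel]
    simp only [pow_succ, map_natCast]
    ring

theorem N1_mul (G N P : L[X]) : N1 (G * N) (G * P) = G ^ 2 * N1 N P := by
  simp only [N1, der_mul]; ring

theorem N2_mul (G N P : L[X]) : N2 (G * N) (G * P) = G ^ 3 * N2 N P := by
  unfold N2
  rw [N1_mul, der_mul, der_mul, show G ^ 2 = G ^ (1 + 1) from rfl, der_pow]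
  push_cast
  ring

theorem N3_mul (G N P : L[X]) : N3 (G * N) (G * P) = G ^ 4 * N3 N P := by
  unfold N3
  rw [N2_mul, der_mul, der_mul, show G ^ 3 = G ^ (2 + 1) from rfl, der_pow]
  push_cast
  ring

theorem Sch_mul (G N P : L[X]) : Sch (G * N) (G * P) = G ^ 6 * Sch N P := by
  unfold Sch
  rw [N1_mul, N2_mul, N3_mul]
  ring

theorem N1_addC (c : L) (N P : L[X]) : N1 (N + C c * P) P = N1 N P := by
  simp only [N1, der_add, der_mul, der_C]; ring

theorem Sch_addC (c : L) (N P : L[X]) : Sch (N + C c * P) P = Sch N P := by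
  simp only [Sch, N2, N3, N1_addC]

theorem N1_expand (t : ℕ) (N P : L[X]) :
    N1 (C (t : L) * expand L t N) (expand L t P) = C ((t : L) ^ 2) * expand L t (N1 N P) := by
  simp only [N1, der_mul, der_C, der_expand, map_sub, map_mul, map_pow]
  ring

theorem N2_expand (t : ℕ) (N P : L[X]) :
    N2 (C (t : L) * expand L t N) (expand L t P) = C ((t : L) ^ 3) * expand L t (N2 N P) := by
  unfold N2
  rw [N1_expand, der_mul, der_C, der_expand, der_expand]
  simp only [map_sub, map_mul, map_pow, map_ofNat]
  ring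

theorem N3_expand (t : ℕ) (N P : L[X]) :
    N3 (C (t : L) * expand L t N) (expand L t P) = C ((t : L) ^ 4) * expand L t (N3 N P) := by
  unfold N3
  rw [N2_expand, der_mul, der_C, der_expand, der_expand]
  simp only [map_sub, map_mul, map_pow, map_ofNat]
  ring

theorem Sch_expand (t : ℕ) (N P : L[X]) :
    Sch (C (t : L) * expand L t N) (expand L t P) = C ((t : L) ^ 6) * expand L t (Sch N P) := by
  unfold Sch
  rw [N1_expand, N2_expand, N3_expand]
  simp only [map_sub, map_mul, map_pow, map_ofNat]
  ring

/-! ### degrees -/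

theorem natDegree_der_le (f : L[X]) : (der f).natDegree ≤ f.natDegree := by
  unfold der
  rcases Nat.eq_zero_or_pos f.natDegree with h | h
  · rw [natDegree_eq_zero] at h
    obtain ⟨c, rfl⟩ := h
    simp
  · refine (natDegree_mul_le).trans ?_
    have h1 := natDegree_derivative_le f
    have h2 : (X : L[X]).natDegree ≤ 1 := natDegree_X_le
    omega

theorem natDegree_N1_le {N P : L[X]} {M : ℕ} (hN : N.natDegree ≤ M) (hP : P.natDegree ≤ M) :
    (N1 N P).natDegree ≤ 2 * M := by
  unfold N1
  refine (natDegree_sub_le _ _).trans (max_le ?_ ?_)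
  · exact natDegree_mul_le.trans (by have := natDegree_der_le N; omega)
  · exact natDegree_mul_le.trans (by have := natDegree_der_le P; omega)

theorem natDegree_N2_le {N P : L[X]} {M : ℕ} (hN : N.natDegree ≤ M) (hP : P.natDegree ≤ M) :
    (N2 N P).natDegree ≤ 3 * M := by
  unfold N2
  have h1 := natDegree_N1_le hN hP
  have h2 := natDegree_der_le (N1 N P)
  have h3 := natDegree_der_le P
  refine (natDegree_sub_le _ _).trans (max_le ?_ ?_)
  · exact natDegree_mul_le.trans (by omega)
  · refine natDegree_mul_le.trans ?_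
    have h4 : (2 * N1 N P).natDegree ≤ (N1 N P).natDegree := by
      rw [show (2 : L[X]) = C (2 : L) from (map_ofNat C 2).symm]
      exact natDegree_C_mul_le _ _
    omega

theorem natDegree_N3_le {N P : L[X]} {M : ℕ} (hN : N.natDegree ≤ M) (hP : P.natDegree ≤ M) :
    (N3 N P).natDegree ≤ 4 * M := by
  unfold N3
  have h1 := natDegree_N2_le hN hP
  have h2 := natDegree_der_le (N2 N P)
  have h3 := natDegree_der_le P
  refine (natDegree_sub_le _ _).trans (max_le ?_ ?_)
  · exact natDegree_mul_le.trans (by omega)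
  · refine natDegree_mul_le.trans ?_
    have h4 : (3 * N2 N P).natDegree ≤ (N2 N P).natDegree := by
      rw [show (3 : L[X]) = C (3 : L) from (map_ofNat C 3).symm]
      exact natDegree_C_mul_le _ _
    omega

/-- The degree of the Schwarzian. -/
theorem natDegree_Sch_le {N P : L[X]} {M : ℕ} (hN : N.natDegree ≤ M) (hP : P.natDegree ≤ M) :
    (Sch N P).natDegree ≤ 6 * M := by
  unfold Sch
  have h1 := natDegree_N1_le hN hP
  have h2 := natDegree_N2_le hN hP
  have h3 := natDegree_N3_le hN hP
  refine (natDegree_sub_le _ _).trans (max_le ?_ ?_)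
  · refine natDegree_mul_le.trans ?_
    have h4 : (2 * N1 N P).natDegree ≤ (N1 N P).natDegree := by
      rw [show (2 : L[X]) = C (2 : L) from (map_ofNat C 2).symm]
      exact natDegree_C_mul_le _ _
    omega
  · refine natDegree_mul_le.trans ?_
    have h4 : (3 : L[X]).natDegree = 0 := by
      rw [show (3 : L[X]) = C (3 : L) from (map_ofNat C 3).symm]
      exact natDegree_C _
    have h5 : (N2 N P ^ 2).natDegree ≤ 2 * (N2 N P).natDegree := natDegree_pow_le
    omega

/-! ### C3: vanishing Schwarzian -/

theorem der_X_pow_mul (l : ℕ) (f : L[X]) :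
    der (X ^ l * f) = X ^ l * ((l : L[X]) * f + der f) := by
  rcases l with _ | l
  · simp
  · rw [der_mul, der_pow]
    simp only [der, derivative_X]
    push_cast
    ring

/-- C3: if the Schwarzian of `N / P` vanishes and `P(0) ≠ 0` then `N / P` is killed by `D`. -/
theorem N1_eq_zero_of_Sch {N P : L[X]} (hS : Sch N P = 0) (hP : P.eval 0 ≠ 0) : N1 N P = 0 := by
  by_contra hne
  obtain ⟨M1, hM1, hM10⟩ := exists_eq_pow_rootMultiplicity_mul_and_not_dvd (N1 N P) hne 0
  set l := rootMultiplicity 0 (N1 N P) with hl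
  simp only [map_zero, sub_zero] at hM1 hM10
  have hc : M1.eval 0 ≠ 0 := by
    intro h
    apply hM10
    rw [X_dvd_iff, coeff_zero_eq_eval_zero]
    exact h
  have hD0 : ∀ f : L[X], (der f).eval 0 = 0 := fun f => by simp [der]
  -- N2
  set M2 := ((l : L[X]) * M1 + der M1) * P - 2 * M1 * der P with hM2
  have h2 : N2 N P = X ^ l * M2 := by
    unfold N2
    rw [hM1, der_X_pow_mul, hM2]
    ring
  set M3 := ((l : L[X]) * M2 + der M2) * P - 3 * M2 * der P with hM3
  have h3 : N3 N P = X ^ l * M3 := by
    unfold N3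
    rw [h2, der_X_pow_mul, hM3]
    ring
  have h4 : 2 * M1 * M3 - 3 * M2 ^ 2 = 0 := by
    have h5 : X ^ l * X ^ l * (2 * M1 * M3 - 3 * M2 ^ 2) = 0 := by
      rw [← hS]
      unfold Sch
      rw [h2, h3, hM1]
      ring
    have h6 : (X ^ l * X ^ l : L[X]) ≠ 0 :=
      mul_ne_zero (pow_ne_zero _ X_ne_zero) (pow_ne_zero _ X_ne_zero)
    exact (mul_eq_zero.mp h5).resolve_left h6
  have e2 : M2.eval 0 = l * M1.eval 0 * P.eval 0 := by
    rw [hM2]
    simp [hD0]
  have e3 : M3.eval 0 = l * (l * M1.eval 0 * P.eval 0) * P.eval 0 := by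
    rw [hM3]
    simp [hD0, e2]
  have e4 : ((l : L) * M1.eval 0 * P.eval 0) ^ 2 = 0 := by
    have := congrArg (eval 0) h4
    simp only [eval_sub, eval_mul, eval_pow, e2, e3, eval_zero, eval_ofNat] at this
    linear_combination -this
  have hl0 : (l : L) = 0 := by
    have := pow_eq_zero_iff (two_ne_zero) |>.mp e4
    rcases mul_eq_zero.mp this with h | h
    · exact (mul_eq_zero.mp h).resolve_right hc
    · exact absurd h hP
  -- power series
  have hPu : PowerSeries.constantCoeff (P : PowerSeries L) ≠ 0 := by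
    rw [← PowerSeries.coeff_zero_eq_constantCoeff_apply, Polynomial.coeff_coe,
      coeff_zero_eq_eval_zero]
    exact hP
  set F : PowerSeries L := (N : PowerSeries L) * (P : PowerSeries L)⁻¹ with hF
  have hFP : F * (P : PowerSeries L) = N := by
    rw [hF, mul_assoc, PowerSeries.inv_mul_cancel _ hPu, mul_one]
  set dF : PowerSeries L := PowerSeries.X * PowerSeries.derivative L F with hdF
  have hder : ∀ f : L[X], ((der f : L[X]) : PowerSeries L) =
      PowerSeries.X * PowerSeries.derivative L (f : PowerSeries L) := fun f => by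
    simp only [der, Polynomial.coe_mul, Polynomial.coe_X, PowerSeries.derivative_coe]
  have h7 : ((N1 N P : L[X]) : PowerSeries L) = dF * (P : PowerSeries L) ^ 2 := by
    simp only [N1, Polynomial.coe_sub, Polynomial.coe_mul, hder]
    rw [← hFP, Derivation.leibniz, hdF]
    simp only [smul_eq_mul]
    ring
  have h8 : dF * (P : PowerSeries L) ^ 2 = PowerSeries.X ^ l * (M1 : PowerSeries L) := by
    rw [← h7, hM1]
    simp
  have h9 : dF = PowerSeries.X ^ l * ((M1 : PowerSeries L) * ((P : PowerSeries L)⁻¹) ^ 2) := by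
    have : dF = dF * (P : PowerSeries L) ^ 2 * ((P : PowerSeries L)⁻¹) ^ 2 := by
      rw [mul_assoc, ← mul_pow, PowerSeries.mul_inv_cancel _ hPu, one_pow, mul_one]
    rw [this, h8]
    ring
  have h10 : PowerSeries.coeff l dF = M1.eval 0 * ((P.eval 0)⁻¹) ^ 2 := by
    rw [h9, PowerSeries.coeff_X_pow_mul', if_pos le_rfl, Nat.sub_self]
    simp only [PowerSeries.coeff_zero_eq_constantCoeff, map_mul, map_pow,
      PowerSeries.constantCoeff_inv]
    have a1 : PowerSeries.constantCoeff (M1 : PowerSeries L) = M1.eval 0 := by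
      rw [← PowerSeries.coeff_zero_eq_constantCoeff_apply, Polynomial.coeff_coe,
        coeff_zero_eq_eval_zero]
    have a2 : PowerSeries.constantCoeff (P : PowerSeries L) = P.eval 0 := by
      rw [← PowerSeries.coeff_zero_eq_constantCoeff_apply, Polynomial.coeff_coe,
        coeff_zero_eq_eval_zero]
    rw [a1, a2]
  have h11 : PowerSeries.coeff l dF = l * PowerSeries.coeff l F := by
    rw [hdF]
    rcases l with _ | l
    · simp
    · rw [PowerSeries.coeff_succ_X_mul, PowerSeries.coeff_derivative]
      push_cast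
      ring
  rw [h11, hl0, zero_mul] at h10
  have h12 : M1.eval 0 * ((P.eval 0)⁻¹) ^ 2 ≠ 0 :=
    mul_ne_zero hc (pow_ne_zero _ (inv_ne_zero hP))
  exact h12 h10.symm

end Pool.Agent.CYE
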